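import Mathlib
import Pool.Agent.V5helper95.KV.Crit
import Pool.Agent.Y205.AV.Large
import Pool.Agent.V5helper94.AC.Cnt
import Pool.Agent.V5helper94.AC.Gen

set_option autoImplicit false

/-!
# The SHGH conjecture for almost all classes, uniformly in the size of the multiplicities

Consider all classes `d H - ∑ w i E i` on the blow-up of the complex projective plane at `n` general
points with `1 ≤ d ≤ D` and `0 ≤ w i < M`; there are `D M ^ n` of them. We show that
`h⁰ = max (0, χ)` for all of them but the proportion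

* `10 ^ 7 / n`, for all `n`, `D`, `M ≥ 1`;
* `(3 / 4) ^ n + 10 / M + 320000000 / n ^ 3`, if `n ≥ 3000000`;
* `(3 / 4) ^ n`, if `n ≥ 600000 M`.

More precisely, let `n ≥ 3000000` and let `w` be a vector of the box `[0, M) ^ n`, of which at least
an eighth of the coordinates are at least `M / 3` (all vectors but the proportion `(3 / 4) ^ n`).
Then `h⁰ = max (0, χ)` for the class `d H - ∑ w i E i` and general points for ALL degrees `d` but at
most `√n + 32000000 M / n ^ (5 / 2)`, all of which are larger than `M √n / 10`; there is no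
exceptional degree at all if `n ≥ 600000 M`. (The critical degree, where `χ` changes its sign, has
the size `M √n`.) For every `n ≥ 4` and every vector `w` of the box for which the sum `T` of the
`w i ^ 2`, `w i ≥ 2`, is at least `576 M ^ 2`, there are at most `√n + 720 M ^ 6 / T ^ (5 / 2)`
exceptional degrees.
-/

namespace Pool.Agent.Results.MP_70e04f_ag.AlmostAllClasses

open MvPolynomial Pool.Agent.TH167.SHDefs
open Pool.Agent.Y536.SH (Standard)
open Pool.Agent.V5helper95.KV (Positive Negative up)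
open Pool.Agent.Y205.AV (Large)
open Pool.Agent.V5helper94.AC (big Vec)

/-- `h⁰ (D)` for the class `D = d H - ∑ w i E i`. -/
noncomputable def hZero {n : ℕ} (P : Fin n → Fin 2 → ℂ) (d : ℕ) (w : Fin n → ℕ) : ℤ :=
  (Module.finrank ℂ ↥(sys P d w) : ℤ)

/-- The Euler characteristic. -/
def chi {n : ℕ} (d : ℕ) (w : Fin n → ℕ) : ℤ :=
  ((d + 2).choose 2 : ℤ) - ∑ i, ((w i + 1).choose 2 : ℤ)

/-- The property holds for all `n`-tuples of points outside some hypersurface. -/
def ForGeneral {n : ℕ} (p : (Fin n → Fin 2 → ℂ) → Prop) : Prop :=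
  ∃ F : MvPolynomial (Fin n × Fin 2) ℂ, F ≠ 0 ∧ ∀ P : Fin n → Fin 2 → ℂ,
    eval (fun ij : Fin n × Fin 2 => P ij.1 ij.2) F ≠ 0 → p P

/-- The number of the classes `d H - ∑ w i E i`, `1 ≤ d ≤ D`, `0 ≤ w i < M`, with
`h⁰ ≠ max (0, χ)` at the points `P`. -/
noncomputable def special {n : ℕ} (P : Fin n → Fin 2 → ℂ) (D M : ℕ) : ℕ :=
  {a : ℕ × (Fin n → ℕ) | 1 ≤ a.1 ∧ a.1 ≤ D ∧ (∀ i, a.2 i < M) ∧
    hZero P a.1 a.2 ≠ max 0 (chi a.1 a.2)}.ncard

theorem hZero_of {n : ℕ} {P : Fin n → Fin 2 → ℂ} {d : ℕ} {w : Fin n → ℕ}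
    (h : Pool.Agent.H932R3.ExpDim ℂ w P d) : hZero P d w = max 0 (chi d w) := by
  have h1 : Module.finrank ℂ ↥(sys P d w) =
      Nat.choose (d + 2) 2 - ∑ i, Nat.choose (w i + 1) 2 := h
  have h2 : ∑ i, ((w i + 1).choose 2 : ℤ) = ((∑ i, Nat.choose (w i + 1) 2 : ℕ) : ℤ) := by
    push_cast
    rfl
  unfold hZero chi
  rw [h1, h2]
  omega

/-- The criteria which are used. -/
def Good {n : ℕ} (d : ℕ) (w : Fin n → ℕ) : Prop := Positive d w ∨ Negative d w ∨ Large d w

theorem general {n d : ℕ} {w : Fin n → ℕ} (hn : 4 ≤ n) (h : Good d w) :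
    ForGeneral fun P => hZero P d w = max 0 (chi d w) := by
  obtain ⟨r, rfl⟩ : ∃ r, n = r + 4 := ⟨n - 4, by omega⟩
  obtain ⟨F, hF, hF'⟩ := Pool.Agent.TH442.NF.to_open (d := d) (w := w) fun {K _ _ P} hP => by
    rcases h with h | h | h
    · exact Pool.Agent.V5helper95.KV.pos_exp h hP
    · exact Pool.Agent.V5helper95.KV.neg_exp h hP
    · exact Pool.Agent.Y205.AV.large_exp h hP
  refine ⟨F.map (algebraMap ℚ ℂ), Pool.Agent.H932R3.map_ne_zero_of hF, fun P hP => ?_⟩
  rw [MvPolynomial.eval_map] at hP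
  exact hZero_of (hF' (L := ℂ) P hP)

theorem forGeneral_finset {n : ℕ} {ι : Type*} (s : Finset ι) (p : ι → (Fin n → Fin 2 → ℂ) → Prop)
    (h : ∀ a ∈ s, ForGeneral (p a)) : ForGeneral fun P => ∀ a ∈ s, p a P := by
  classical
  induction s using Finset.induction_on with
  | empty => exact ⟨1, one_ne_zero, fun P _ a ha => absurd ha (Finset.notMem_empty a)⟩
  | insert a s _ ih =>
    obtain ⟨F, hF, hF'⟩ := ih fun b hb => h b (Finset.mem_insert_of_mem hb)
    obtain ⟨G, hG, hG'⟩ := h a (Finset.mem_insert_self a s)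
    refine ⟨F * G, mul_ne_zero hF hG, fun P hP b hb => ?_⟩
    rw [map_mul] at hP
    rcases Finset.mem_insert.1 hb with rfl | hb
    · exact hG' P (right_ne_zero_of_mul hP)
    · exact hF' P (left_ne_zero_of_mul hP) b hb

open Classical in
theorem special_le {n D M : ℕ} {B : ℝ} (hn : 4 ≤ n)
    (h : (((Finset.Icc 1 D ×ˢ Vec n M).filter (fun a => ¬ Good a.1 a.2)).card : ℝ) ≤ B) :
    ForGeneral fun P : Fin n → Fin 2 → ℂ => (special P D M : ℝ) ≤ B := by
  obtain ⟨F, hF, hF'⟩ := forGeneral_finset (n := n) (Finset.Icc 1 D ×ˢ Vec n M)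
    (fun a P => Good a.1 a.2 → hZero P a.1 a.2 = max 0 (chi a.1 a.2)) fun a _ => by
      by_cases hG : Good a.1 a.2
      · obtain ⟨F, hF, hF'⟩ := general hn hG
        exact ⟨F, hF, fun P hP _ => hF' P hP⟩
      · exact ⟨1, one_ne_zero, fun P _ h' => absurd h' hG⟩
  refine ⟨F, hF, fun P hP => le_trans ?_ h⟩
  have h1 : {a : ℕ × (Fin n → ℕ) | 1 ≤ a.1 ∧ a.1 ≤ D ∧ (∀ i, a.2 i < M) ∧
      hZero P a.1 a.2 ≠ max 0 (chi a.1 a.2)} ⊆
      (((Finset.Icc 1 D ×ˢ Vec n M).filter (fun a => ¬ Good a.1 a.2) :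
        Finset (ℕ × (Fin n → ℕ))) : Set (ℕ × (Fin n → ℕ))) := by
    rintro a ⟨h2, h3, h4, h5⟩
    have h6 : a ∈ Finset.Icc 1 D ×ˢ Vec n M :=
      Finset.mem_product.2 ⟨Finset.mem_Icc.2 ⟨h2, h3⟩, Pool.Agent.V5helper94.AC.mem_Vec.2 h4⟩
    exact Finset.mem_coe.2 (Finset.mem_filter.2 ⟨h6, fun hG => h5 (hF' P hP a h6 hG)⟩)
  have h2 := Set.ncard_le_ncard h1 (Finset.finite_toSet _)
  rw [Set.ncard_coe_finset] at h2
  exact_mod_cast h2

theorem special_trivial {n : ℕ} (P : Fin n → Fin 2 → ℂ) (D M : ℕ) :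
    (special P D M : ℝ) ≤ D * (M : ℝ) ^ n := by
  have h1 : {a : ℕ × (Fin n → ℕ) | 1 ≤ a.1 ∧ a.1 ≤ D ∧ (∀ i, a.2 i < M) ∧
      hZero P a.1 a.2 ≠ max 0 (chi a.1 a.2)} ⊆
      ((Finset.Icc 1 D ×ˢ Vec n M : Finset (ℕ × (Fin n → ℕ))) : Set (ℕ × (Fin n → ℕ))) := by
    rintro a ⟨h2, h3, h4, _⟩
    exact Finset.mem_coe.2 (Finset.mem_product.2 ⟨Finset.mem_Icc.2 ⟨h2, h3⟩,
      Pool.Agent.V5helper94.AC.mem_Vec.2 h4⟩)
  have h2 := Set.ncard_le_ncard h1 (Finset.finite_toSet _)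
  rw [Set.ncard_coe_finset, Finset.card_product, Nat.card_Icc, Nat.add_sub_cancel,
    Pool.Agent.V5helper94.AC.card_Vec] at h2
  exact_mod_cast h2

/-- Small multiplicities: no exceptional degree. -/
theorem good_large {n M : ℕ} {w : Fin n → ℕ} (hn : 600000 * M ≤ n) (hw : ∀ i, w i < M)
    (ha : n ≤ 8 * big M w) (hM : 1 ≤ M) (d : ℕ) : Good d w := by
  classical
  refine Or.inr (Or.inr ⟨Finset.univ, M - 1, (Finset.univ.image w).card, fun i _ => ?_,
    fun i hi => absurd (Finset.mem_univ i) hi, le_rfl, Or.inl ?_⟩)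
  · have := hw i
    omega
  · have h1 : (((M - 1 : ℕ) : ℤ) + 1) = M := by omega
    rw [h1]
    have h2 : (25000 * (M : ℤ) ^ 2) ≤ ∑ i, (w i : ℤ) := by
      have := Pool.Agent.V5helper94.AC.sum_large hn ha
      exact_mod_cast this
    have h3 : (0 : ℤ) ≤ |((d + 2).choose 2 : ℤ) - ∑ i, ((w i + 1).choose 2 : ℤ)| := abs_nonneg _
    linarith

theorem good_zero {n : ℕ} {w : Fin n → ℕ} (hw : ∀ i, w i < 1) (d : ℕ) : Good d w := by
  have h0 : ∀ i, w i = 0 := fun i => by
    have := hw i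
    omega
  have h1 : ∀ i, up w i = 0 := fun i => by
    unfold up
    rw [h0 i]
    rfl
  have h2 : ∑ i, up w i ^ 2 = 0 := by
    refine Finset.sum_eq_zero fun i _ => ?_
    rw [h1 i]
    rfl
  refine Or.inl (Pool.Agent.V5helper95.KV.crit_positive (M := 1) one_pos
    (fun i => by rw [h1 i]; exact Nat.zero_le _) (by rw [h2]; positivity)
    (Or.inl ⟨?_, Or.inl (by rw [h2]; exact Nat.zero_le _)⟩))
  intro i j k _ _ _
  rw [h0 i, h0 j, h0 k]
  exact Nat.zero_le _

/-- Arbitrary multiplicities: the exceptional degrees are in a short interval. -/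
theorem good_window {n M : ℕ} {w : Fin n → ℕ} (hn : 3000000 ≤ n) (hM : 6 ≤ M)
    (hw : ∀ i, w i < M) (ha : n ≤ 8 * big M w) :
    ∃ α β : ℝ, (M : ℝ) * √n / 10 ≤ α ∧
      β - α + 1 ≤ √n + 32000000 * M / ((n : ℝ) ^ 2 * √n) ∧
      ∀ d : ℕ, ¬ Good d w → α < (d : ℝ) ∧ (d : ℝ) < β := by
  obtain ⟨α, β, h1, h2, h3, h4⟩ := Pool.Agent.V5helper94.AC.window (u := up w) hn hM ha
    (fun i => rfl)
  refine ⟨α, β, h1, h2, fun d hd => ⟨?_, ?_⟩⟩
  · by_contra hcon
    push Not at hcon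
    exact hd (Or.inr (Or.inl (Pool.Agent.V5helper95.KV.crit_negative (M := M) (by omega)
      (fun i => (hw i).le) (Or.inr (Or.inl (h3 d hcon))))))
  · by_contra hcon
    push Not at hcon
    obtain ⟨h5, h6, h7⟩ := h4 d hcon
    refine hd (Or.inl (Pool.Agent.V5helper95.KV.crit_positive (M := M) (by omega)
      (fun i => ?_) h5 (Or.inr (Or.inl ⟨h6, h7⟩))))
    unfold up
    have := hw i
    split_ifs <;> omega

/-- Exceptional degrees of a single vector. -/
theorem good_gen {n M : ℕ} {w : Fin n → ℕ} (hM : 1 ≤ M) (hw : ∀ i, w i < M)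
    (hT : 576 * M ^ 2 ≤ ∑ i, (if 2 ≤ w i then w i ^ 2 else 0)) :
    ∃ α β : ℝ, 0 ≤ α ∧
      β - α + 1 ≤ √n + 720 * (M : ℝ) ^ 6 /
        √((∑ i, (if 2 ≤ w i then w i ^ 2 else 0) : ℕ) : ℝ) ^ 5 ∧
      ∀ d : ℕ, ¬ Good d w → α < (d : ℝ) ∧ (d : ℝ) < β := by
  obtain ⟨α, β, h1, h2, h3, h4⟩ := Pool.Agent.V5helper94.AC.window_gen (u := up w) hM rfl hT
    (fun i => rfl)
  refine ⟨α, β, h1, h2, fun d hd => ⟨?_, ?_⟩⟩
  · by_contra hcon
    push Not at hcon
    exact hd (Or.inr (Or.inl (Pool.Agent.V5helper95.KV.crit_negative (M := M) (by omega)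
      (fun i => (hw i).le) (Or.inr (Or.inl (h3 d hcon))))))
  · by_contra hcon
    push Not at hcon
    obtain ⟨h5, h6, h7⟩ := h4 d hcon
    refine hd (Or.inl (Pool.Agent.V5helper95.KV.crit_positive (M := M) (by omega)
      (fun i => ?_) h5 (Or.inr (Or.inl ⟨h6, h7⟩))))
    unfold up
    have := hw i
    split_ifs <;> omega

open Classical in
theorem filter_small {n D M : ℕ} (hM : 1 ≤ M) (hn : 600000 * M ≤ n) :
    (((Finset.Icc 1 D ×ˢ Vec n M).filter (fun a => ¬ Good a.1 a.2)).card : ℝ) ≤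
      (3 / 4) ^ n * (D * (M : ℝ) ^ n) := by
  rcases hM.eq_or_lt with rfl | hM2
  · have h1 : (Finset.Icc 1 D ×ˢ Vec n 1).filter (fun a => ¬ Good a.1 a.2) = ∅ := by
      refine Finset.filter_eq_empty_iff.2 fun a ha hG => hG ?_
      exact good_zero (Pool.Agent.V5helper94.AC.mem_Vec.1 (Finset.mem_product.1 ha).2) a.1
    rw [h1, Finset.card_empty, Nat.cast_zero]
    positivity
  · have h1 := Pool.Agent.V5helper94.AC.count (n := n) (M := M) (D := D) hM2
      (fun d w => Good d w) (B := 0) le_rfl (fun w hw ha => by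
        have h2 : (Finset.Icc 1 D).filter (fun d => ¬ Good d w) = ∅ :=
          Finset.filter_eq_empty_iff.2 fun d _ hG => hG (good_large hn hw ha hM d)
        rw [h2, Finset.card_empty, Nat.cast_zero, zero_mul])
    rwa [add_zero] at h1

open Classical in
theorem filter_any {n D M : ℕ} (hM : 1 ≤ M) (hn : 3000000 ≤ n) :
    (((Finset.Icc 1 D ×ˢ Vec n M).filter (fun a => ¬ Good a.1 a.2)).card : ℝ) ≤
      ((3 / 4) ^ n + (10 / M + 320000000 / (n : ℝ) ^ 3)) * (D * (M : ℝ) ^ n) := by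
  rcases le_or_gt M 5 with h5 | h5
  · refine (filter_small hM (by omega)).trans ?_
    refine mul_le_mul_of_nonneg_right ?_ (by positivity)
    have : (0 : ℝ) ≤ 10 / M + 320000000 / (n : ℝ) ^ 3 := by positivity
    linarith
  · refine Pool.Agent.V5helper94.AC.count (n := n) (M := M) (D := D) (by omega)
      (fun d w => Good d w) (by positivity) fun w hw ha => ?_
    obtain ⟨α, β, h1, h2, h3⟩ := good_window hn (by omega) hw ha
    exact Pool.Agent.V5helper94.AC.count_degrees hn (by omega) h1 h2 (p := fun d => Good d w) h3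

/-- **The SHGH conjecture for almost all classes.** (1) is nontrivial for `n > 10 ^ 7`; note that it
is uniform in `D` and `M`. (4) For all vectors of multiplicities of the box but the exceptional ones
in (5) only few degrees are left. -/
theorem result :
    -- (1)
    (∀ n D M : ℕ, 1 ≤ n → 1 ≤ D → 1 ≤ M → ForGeneral fun P : Fin n → Fin 2 → ℂ =>
      (special P D M : ℝ) ≤ 10 ^ 7 / n * (D * (M : ℝ) ^ n)) ∧
    -- (2)
    (∀ n D M : ℕ, 3000000 ≤ n → 1 ≤ D → 1 ≤ M → ForGeneral fun P : Fin n → Fin 2 → ℂ =>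
      (special P D M : ℝ) ≤
        ((3 / 4) ^ n + (10 / M + 320000000 / (n : ℝ) ^ 3)) * (D * (M : ℝ) ^ n)) ∧
    -- (3)
    (∀ n D M : ℕ, 600000 * M ≤ n → 1 ≤ D → 1 ≤ M → ForGeneral fun P : Fin n → Fin 2 → ℂ =>
      (special P D M : ℝ) ≤ (3 / 4) ^ n * (D * (M : ℝ) ^ n)) ∧
    -- (4)
    (∀ n M : ℕ, 3000000 ≤ n → ∀ w : Fin n → ℕ, (∀ i, w i < M) → n ≤ 8 * big M w →
      ∃ E : Finset ℕ, (E.card : ℝ) ≤ √n + 32000000 * M / ((n : ℝ) ^ 2 * √n) ∧
        (∀ d ∈ E, (M : ℝ) * √n / 10 < d) ∧ (600000 * M ≤ n → E = ∅) ∧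
        ∀ d ∉ E, ForGeneral fun P => hZero P d w = max 0 (chi d w)) ∧
    -- (5)
    (∀ n M : ℕ, 2 ≤ M →
      ({w : Fin n → ℕ | (∀ i, w i < M) ∧ ¬ n ≤ 8 * big M w}.ncard : ℝ) ≤
        (3 / 4) ^ n * (M : ℝ) ^ n) ∧
    -- (6)
    (∀ n M : ℕ, 4 ≤ n → 1 ≤ M → ∀ w : Fin n → ℕ, (∀ i, w i < M) →
      576 * M ^ 2 ≤ ∑ i, (if 2 ≤ w i then w i ^ 2 else 0) →
      ∃ E : Finset ℕ, (E.card : ℝ) ≤ √n + 720 * (M : ℝ) ^ 6 /
          √((∑ i, (if 2 ≤ w i then w i ^ 2 else 0) : ℕ) : ℝ) ^ 5 ∧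
        ∀ d ∉ E, ForGeneral fun P => hZero P d w = max 0 (chi d w)) := by
  classical
  refine ⟨fun n D M hn hD hM => ?_, fun n D M hn hD hM => ?_, fun n D M hn hD hM => ?_,
    fun n M hn w hw ha => ?_, fun n M hM => ?_, fun n M hn hM w hw hT => ?_⟩
  · rcases lt_or_ge n 3000000 with h | h
    · refine ⟨1, one_ne_zero, fun P _ => (special_trivial P D M).trans ?_⟩
      have hn0 : (0 : ℝ) < n := by exact_mod_cast hn
      have h1 : (1 : ℝ) ≤ 10 ^ 7 / n := by
        rw [le_div_iff₀ hn0]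
        have : (n : ℝ) < 3000000 := by exact_mod_cast h
        linarith
      exact le_mul_of_one_le_left (by positivity) h1
    · rcases le_or_gt (600000 * M) n with h2 | h2
      · refine special_le (by omega) ((filter_small hM h2).trans ?_)
        refine mul_le_mul_of_nonneg_right ?_ (by positivity)
        refine (Pool.Agent.V5helper94.AC.pow_small hn).trans ?_
        exact div_le_div_of_nonneg_right (by norm_num) (Nat.cast_nonneg n)
      · refine special_le (by omega) ((filter_any hM h).trans ?_)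
        exact mul_le_mul_of_nonneg_right (Pool.Agent.V5helper94.AC.uniform h h2) (by positivity)
  · exact special_le (by omega) (filter_any hM hn)
  · exact special_le (by omega) (filter_small hM hn)
  · by_cases h2 : 600000 * M ≤ n
    · refine ⟨∅, ?_, fun d hd => absurd hd (Finset.notMem_empty d), fun _ => rfl, fun d _ => ?_⟩
      · rw [Finset.card_empty, Nat.cast_zero]
        positivity
      · have hM : 1 ≤ M := lt_of_le_of_lt (Nat.zero_le _) (hw ⟨0, by omega⟩)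
        exact general (by omega) (good_large h2 hw ha hM d)
    · obtain ⟨α, β, h3, h4, h5⟩ := good_window hn (by omega) hw ha
      have hα : 0 ≤ α := le_trans (by positivity) h3
      refine ⟨(Finset.range ⌈β⌉₊).filter (fun d => ¬ Good d w), ?_, fun d hd => ?_,
        fun h => absurd h h2, fun d hd => ?_⟩
      · exact Pool.Agent.V5helper94.AC.card_Ioo_le hα
          (fun d hd => h5 d (Finset.mem_filter.1 hd).2) (by positivity) h4
      · exact lt_of_le_of_lt h3 (h5 d (Finset.mem_filter.1 hd).2).1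
      · refine general (by omega) ?_
        by_contra hG
        exact hd (Finset.mem_filter.2 ⟨Finset.mem_range.2 (Nat.lt_ceil.2 (h5 d hG).2), hG⟩)
  · have h1 := Pool.Agent.V5helper94.AC.few (n := n) hM
    have h2 : {w : Fin n → ℕ | (∀ i, w i < M) ∧ ¬ n ≤ 8 * big M w} =
        (((Vec n M).filter (fun w => 8 * big M w < n) : Finset (Fin n → ℕ)) :
          Set (Fin n → ℕ)) := by
      ext w
      simp only [Set.mem_setOf_eq, Finset.coe_filter, Pool.Agent.V5helper94.AC.mem_Vec, not_le]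
    rw [h2, Set.ncard_coe_finset]
    exact h1
  · obtain ⟨α, β, h3, h4, h5⟩ := good_gen hM hw hT
    refine ⟨(Finset.range ⌈β⌉₊).filter (fun d => ¬ Good d w), ?_, fun d hd => ?_⟩
    · exact Pool.Agent.V5helper94.AC.card_Ioo_le h3
        (fun d hd => h5 d (Finset.mem_filter.1 hd).2) (by positivity) h4
    · refine general hn ?_
      by_contra hG
      exact hd (Finset.mem_filter.2 ⟨Finset.mem_range.2 (Nat.lt_ceil.2 (h5 d hG).2), hG⟩)

end Pool.Agent.Results.MP_70e04f_ag.AlmostAllClasses
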