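import Mathlib
import Pool.Agent.V5helper95.KV.Crit

set_option autoImplicit false

/-!
# The SHGH conjecture for the classes `D` with `D - K` nef and big, and for those negative on a nef
class: arbitrary multiplicities

Let `D = d H - ∑ w i E i` on the blow-up of the complex projective plane at `n ≥ 4` general points,
`n` and the multiplicities `w i` arbitrary. `Nice` is an explicit cone of nef classes. If `D - K`
(where only the points with `w i ≥ 2` are blown up) is in this cone and `(D - K) ^ 2 > 0`, or if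
this holds for a class with a smaller degree and larger multiplicities (`Positive`), or if `N D < 0`
for a class `N` of the cone (`Negative`), then `h⁰ (D) = max (0, χ)`.

For instance, if `w i < M` and the sum `T` of the `w i ^ 2` with `w i ≥ 2` is at least `576 M ^ 2`
and `130000 ^ (1 / 5) M ^ (12 / 5)`, then `h⁰ (D) = max (0, χ)` for all degrees `d` outside of the
interval `√S - 1 < d < √Q - 2`, `S = ∑ w i ^ 2`, `Q = ∑_{w i ≥ 2} (w i + 1) ^ 2`, whose length is at
most `√n - 1` (`Outside`). Further special cases (`crit_positive`, `crit_negative` in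
`Pool.Agent.V5helper95.KV.Crit`): `h⁰ (D) = max (0, χ)` if `Q < (d + 3) ^ 2`, `0 < M`, `w i < M` and

* `D` is standard and `40 Q ≤ 39 (d + 3) ^ 2` or `(d + 3) ^ 2 (D - K) ^ 2 ≥ 160 M ^ 4`, or
* `d + 3 ≥ 24 M` and `(d + 3) ^ 4 (D - K) ^ 2 ≥ 700 M ^ 6`, or
* `Q ≥ 144 M ^ 2` and `Q ≥ (16 r + 8) M ^ 2`, where the `w i ≥ 2` have `r` different values;

and `h⁰ (D) = 0 = max (0, χ)` if `0 < M`, `w i ≤ M` and

* `D` is standard and `40 d ^ 2 < 39 S` or `S (- D ^ 2) > 160 M ^ 4`, or
* `S ≥ 576 M ^ 2` and `S ^ 2 (- D ^ 2) > 700 M ^ 6`, or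
* `S ≥ 144 M ^ 2`, `S ≥ (16 r + 8) M ^ 2` and `D ^ 2 < 0`, where the `w i ≥ 1` have `r` values.

Moreover for every class `D` at least one of the following holds: `h⁰ (D) = max (0, χ)`; some
`(-1)`-curve `C` has `C D ≤ -2`; or `D`, after the removal of disjoint `(-1)`-curves, each taken
once, and finitely many quadratic transformations, is a standard class with the same `h⁰`, different
from `max (0, χ)`, which satisfies none of the criteria.

The vanishing theorem behind the first part (Kawamata, Viehweg, Ramanujam) is proved from scratch.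
If `D - K` has a section `F` and `h¹ (D) ≠ 0`, a syzygy and an eigenvector produce a factorization
`F = A B` which contradicts the index theorem. In general this is applied to `p (D - K)`, over a
field of large characteristic `p`, and the trace of Frobenius is a surjection
`H¹ (K + p (D - K)) → H¹ (D)`.
-/

namespace Pool.Agent.Results.MP_70e04f_ag.NefAdjointClasses

open MvPolynomial Pool.Agent.TH167.SHDefs
open Pool.Agent.Y536.SH (Standard)
open Pool.Agent.V5helper95.KV (Positive Negative up)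

/-- `h⁰ (D)` for the class `D = d H - ∑ w i E i`. -/
noncomputable def hZero {n : ℕ} (P : Fin n → Fin 2 → ℂ) (d : ℕ) (w : Fin n → ℕ) : ℤ :=
  (Module.finrank ℂ ↥(sys P d w) : ℤ)

/-- The Euler characteristic. -/
def chi {n : ℕ} (d : ℕ) (w : Fin n → ℕ) : ℤ :=
  ((d + 2).choose 2 : ℤ) - ∑ i, ((w i + 1).choose 2 : ℤ)

/-- The property holds for all `n`-tuples of points outside some hypersurface. -/
def ForGeneral {n : ℕ} (p : (Fin n → Fin 2 → ℂ) → Prop) : Prop :=
  ∃ F : MvPolynomial (Fin n × Fin 2) ℂ, F ≠ 0 ∧ ∀ P : Fin n → Fin 2 → ℂ,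
    eval (fun ij : Fin n × Fin 2 => P ij.1 ij.2) F ≠ 0 → p P

/-- The reflection of the class `a = (d; w)`, `d H - ∑ w l E l`, in the class
`H - E (i 0) - E (i 1) - E (i 2)`: with `δ = d - w (i 0) - w (i 1) - w (i 2)`, the numbers
`d`, `w (i 0)`, `w (i 1)`, `w (i 2)` are increased by `δ`. -/
def reflect {n : ℕ} (i : Fin 3 → Fin n) (a : ℤ × (Fin n → ℤ)) : ℤ × (Fin n → ℤ) :=
  (a.1 + (a.1 - a.2 (i 0) - a.2 (i 1) - a.2 (i 2)),
    fun l => a.2 l + if l = i 0 ∨ l = i 1 ∨ l = i 2 then a.1 - a.2 (i 0) - a.2 (i 1) - a.2 (i 2)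
      else 0)

/-- Finitely many reflections carry `(d; w)` to `(d'; w')`. -/
def Carries {n : ℕ} (d : ℕ) (w : Fin n → ℕ) (d' : ℕ) (w' : Fin n → ℕ) : Prop :=
  Relation.ReflTransGen
    (fun a b : ℤ × (Fin n → ℤ) => ∃ i : Fin 3 → Fin n, Function.Injective i ∧ b = reflect i a)
    ((d : ℤ), fun l => (w l : ℤ)) ((d' : ℤ), fun l => (w' l : ℤ))

/-- `w i < M`, the sum `T` of the `w i ^ 2` with `w i ≥ 2` is at least `576 M ^ 2` and
`T ^ 5 ≥ 130000 M ^ 12`, and `(d + 1) ^ 2 ≤ ∑ w i ^ 2` or `Q ≤ (d + 2) ^ 2`. -/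
def Outside {n : ℕ} (d : ℕ) (w : Fin n → ℕ) (M : ℕ) : Prop :=
  (∀ i, w i < M) ∧ 576 * M ^ 2 ≤ ∑ i, (if 2 ≤ w i then w i ^ 2 else 0) ∧
    130000 * M ^ 12 ≤ (∑ i, if 2 ≤ w i then w i ^ 2 else 0) ^ 5 ∧
    ((d + 1) ^ 2 ≤ ∑ i, w i ^ 2 ∨ ∑ i, up w i ^ 2 ≤ (d + 2) ^ 2)

/-- The criteria. -/
def Criterion {n : ℕ} (d : ℕ) (w : Fin n → ℕ) : Prop :=
  Positive d w ∨ Negative d w ∨ ∃ M, Outside d w M

theorem hZero_of {n : ℕ} {P : Fin n → Fin 2 → ℂ} {d : ℕ} {w : Fin n → ℕ}
    (h : Pool.Agent.H932R3.ExpDim ℂ w P d) : hZero P d w = max 0 (chi d w) := by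
  have h1 : Module.finrank ℂ ↥(sys P d w) =
      Nat.choose (d + 2) 2 - ∑ i, Nat.choose (w i + 1) 2 := h
  have h2 : ∑ i, ((w i + 1).choose 2 : ℤ) = ((∑ i, Nat.choose (w i + 1) 2 : ℕ) : ℤ) := by
    push_cast
    rfl
  unfold hZero chi
  rw [h1, h2]
  omega

theorem special_of_ne {n : ℕ} {P : Fin n → Fin 2 → ℂ} {d : ℕ} {w : Fin n → ℕ} :
    hZero P d w ≠ max 0 (chi d w) ↔ Pool.Agent.TH167.SH.Special P d w := by
  unfold hZero Pool.Agent.TH167.SH.Special
  rw [Pool.Agent.TH167.SH.sys_eq]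
  exact Iff.rfl

theorem criterion_cases {n d : ℕ} {w : Fin n → ℕ} (hn : 4 ≤ n) (h : Criterion d w) :
    Positive d w ∨ Negative d w := by
  rcases h with h | h | ⟨M, h⟩
  · exact Or.inl h
  · exact Or.inr h
  · obtain ⟨hM, h1, h2, hd⟩ := h
    have hM0 : 0 < M := lt_of_le_of_lt (Nat.zero_le _) (hM ⟨0, by omega⟩)
    rcases hd with hd | hd
    · have h3 : ∑ i, (if 2 ≤ w i then w i ^ 2 else 0) ≤ ∑ i, w i ^ 2 :=
        Finset.sum_le_sum fun i _ => by split_ifs <;> omega
      exact Or.inr (Pool.Agent.V5helper95.KV.window_neg hM0 (fun i => (hM i).le) (h1.trans h3)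
        (h2.trans (Nat.pow_le_pow_left h3 5)) hd)
    · have h3 : ∑ i, (if 2 ≤ w i then w i ^ 2 else 0) ≤ ∑ i, up w i ^ 2 :=
        Finset.sum_le_sum fun i _ => by
          unfold up
          by_cases h5 : 2 ≤ w i
          · rw [if_pos h5, if_neg (by omega)]
            exact Nat.pow_le_pow_left (by omega) 2
          · rw [if_neg h5]
            exact Nat.zero_le _
      refine Or.inl (Pool.Agent.V5helper95.KV.window_pos hM0 (fun i => ?_) (h1.trans h3)
        ?_ hd)
      · unfold up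
        have := hM i
        split_ifs <;> omega
      · refine le_trans ?_ (Nat.pow_le_pow_left h3 5)
        exact le_trans (Nat.mul_le_mul_right _ (by norm_num)) h2

theorem criterion_exp {n d : ℕ} {w : Fin n → ℕ} (hn : 4 ≤ n) (h : Criterion d w) {K : Type}
    [Field K] [CharZero K] {P : Fin n → Fin 2 → K}
    (hP : AlgebraicIndependent ℚ (fun ij : Fin n × Fin 2 => P ij.1 ij.2)) :
    Pool.Agent.H932R3.ExpDim K w P d := by
  obtain ⟨r, rfl⟩ : ∃ r, n = r + 4 := ⟨n - 4, by omega⟩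
  rcases criterion_cases hn h with h | h
  · exact Pool.Agent.V5helper95.KV.pos_exp h hP
  · exact Pool.Agent.V5helper95.KV.neg_exp h hP

/-- From generic points to general points. -/
theorem general {n d : ℕ} {w : Fin n → ℕ} (h : ∀ {K : Type} [Field K] [CharZero K]
    {P : Fin n → Fin 2 → K},
    AlgebraicIndependent ℚ (fun ij : Fin n × Fin 2 => P ij.1 ij.2) →
    Pool.Agent.H932R3.ExpDim K w P d) :
    ForGeneral fun P => hZero P d w = max 0 (chi d w) := by
  obtain ⟨F, hF, hF'⟩ := Pool.Agent.TH442.NF.to_open (d := d) (w := w) fun {_ _ _ P} hP => h hP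
  refine ⟨F.map (algebraMap ℚ ℂ), Pool.Agent.H932R3.map_ne_zero_of hF, fun P hP => ?_⟩
  rw [MvPolynomial.eval_map] at hP
  exact hZero_of (hF' (L := ℂ) P hP)

/-- The classes which satisfy a criterion, or which reflections carry to a standard class which
does, have `h⁰ = max (0, χ)`; and the reduction of all classes to the standard classes which satisfy
none. -/
theorem result (n : ℕ) (hn : 4 ≤ n) (d : ℕ) (w : Fin n → ℕ) : ForGeneral fun P =>
    ((Criterion d w ∨ ∃ (d' : ℕ) (w' : Fin n → ℕ),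
        Carries d w d' w' ∧ Standard d' w' ∧ Criterion d' w') →
      hZero P d w = max 0 (chi d w)) ∧
    (hZero P d w = max 0 (chi d w) ∨
      (∃ (G : MvPolynomial (Fin 3) ℂ) (e : ℕ) (u : Fin n → ℕ), MinusOne P G e u ∧
        inter d w e u ≤ -2) ∨
      ∃ (d'' : ℕ) (w'' : Fin n → ℕ) (k : ℕ) (G : Fin k → MvPolynomial (Fin 3) ℂ)
        (e : Fin k → ℕ) (u : Fin k → Fin n → ℕ) (d' : ℕ) (w' : Fin n → ℕ),
        Decomp P d w d'' w'' G e u (fun _ => 1) ∧
        Relation.ReflTransGen Quadratic (d'', w'') (d', w') ∧ Standard d' w' ∧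
        hZero P d' w' = hZero P d w ∧ hZero P d' w' ≠ max 0 (chi d' w') ∧
        ¬ Criterion d' w') := by
  obtain ⟨F0, hF0, hF0'⟩ : ForGeneral fun P : Fin n → Fin 2 → ℂ =>
      Criterion d w → hZero P d w = max 0 (chi d w) := by
    by_cases h : Criterion d w
    · obtain ⟨F, hF, hF'⟩ := general fun {K _ _ P} hP => criterion_exp hn h (K := K) (P := P) hP
      exact ⟨F, hF, fun P hP _ => hF' P hP⟩
    · exact ⟨1, one_ne_zero, fun P _ h' => absurd h' h⟩
  obtain ⟨F1, hF1, hF1'⟩ : ForGeneral fun P : Fin n → Fin 2 → ℂ =>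
      (∃ (d' : ℕ) (w' : Fin n → ℕ), Carries d w d' w' ∧ Standard d' w' ∧ Criterion d' w') →
        hZero P d w = max 0 (chi d w) := by
    by_cases h : ∃ (d' : ℕ) (w' : Fin n → ℕ), Carries d w d' w' ∧ Standard d' w' ∧
        Criterion d' w'
    · obtain ⟨d', w', hc, hs, hG⟩ := h
      obtain ⟨F, hF, hF'⟩ := Pool.Agent.TH442.NF.to_open (d := d) (w := w)
        fun {_ _ _ P} hP => Pool.Agent.TH442.NF.up_enef hP hc
          (Pool.Agent.TH442.NF.enef_of_std hn P hs) (criterion_exp hn hG hP)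
      refine ⟨F.map (algebraMap ℚ ℂ), Pool.Agent.H932R3.map_ne_zero_of hF, fun P hP _ => ?_⟩
      rw [MvPolynomial.eval_map] at hP
      exact hZero_of (hF' (L := ℂ) P hP)
    · exact ⟨1, one_ne_zero, fun P _ h' => absurd h' h⟩
  obtain ⟨r, rfl⟩ : ∃ r, n = r + 4 := ⟨n - 4, by omega⟩
  obtain ⟨F, hF, hF'⟩ := Pool.Agent.Y536.SH.hh_full (Q := fun d' w' => Criterion d' w')
    (fun hP d1 w1 _ hG => criterion_exp hn hG hP) d w
  refine ⟨F0 * F1 * F.map (algebraMap ℚ ℂ), mul_ne_zero (mul_ne_zero hF0 hF1)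
    (Pool.Agent.TH167.SH.map_ne hF), fun P hP => ?_⟩
  rw [map_mul, map_mul] at hP
  refine ⟨fun h => h.elim (hF0' P (left_ne_zero_of_mul (left_ne_zero_of_mul hP)))
    (hF1' P (right_ne_zero_of_mul (left_ne_zero_of_mul hP))), ?_⟩
  have hP2 := right_ne_zero_of_mul hP
  rw [Pool.Agent.TH167.SH.evP_eval] at hP2
  by_cases hs : hZero P d w = max 0 (chi d w)
  · exact Or.inl hs
  · right
    have hsp := special_of_ne.1 hs
    rcases hF' ℂ P hP2 hsp with h | ⟨d', w', k, C, e, u, N, d1, w1, h1, h2, h3, h4, h5, h6⟩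
    · left
      exact Pool.Agent.TH167.SH.mspecial_curve
        ((Pool.Agent.TH167.SH.mspecial_conv P d w).2 h)
    · by_cases hN : ∃ a, 2 ≤ N a
      · left
        obtain ⟨a, ha⟩ := hN
        refine ⟨C a, e a, u a, Pool.Agent.TH167.SH.minusOne_iff.2 (h1.exc a), ?_⟩
        rw [Pool.Agent.TH167.SH.inter_eq, h1.neg a]
        omega
      · right
        push Not at hN
        have hN1 : N = fun _ => 1 := by
          funext a
          have := h1.pos a
          have := hN a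
          omega
        subst hN1
        refine ⟨d', w', k, C, e, u, d1, w1, Pool.Agent.TH167.SH.decomp_iff.2 h1,
          Pool.Agent.TH167.SH.chain_conv h2, h3, ?_, special_of_ne.2 h4, h6⟩
        unfold hZero
        rw [Pool.Agent.TH167.SH.sys_eq, Pool.Agent.TH167.SH.sys_eq, h5]

end Pool.Agent.Results.MP_70e04f_ag.NefAdjointClasses
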