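import Mathlib
import Pool.Agent.Results.MP_70e04f_ag.NefAdjointClasses
import Pool.Agent.V5helper94.AC.Dom
import Pool.Agent.V5helper94.AC.Num

set_option autoImplicit false

/-!
# The SHGH conjecture for 38 out of 39 classes, for every number of points

Let `D = d H - ∑ w i E i` be any class (standard or not, arbitrary multiplicities) on the blow-up of
the complex projective plane at `n ≥ 4` general points. The statement of the conjecture holds for
`D`, that is, `h⁰ (D) = max (0, χ)` or `C D ≤ -2` for some `(-1)`-curve `C`, if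

* `40 d ^ 2 + 39 (n + 1) < 39 ∑ w i ^ 2`, or
* `40 (∑ (w i + 1) ^ 2 + n + 1) ≤ 39 (d + 3) ^ 2`.

Hence, for every vector `w` and all `D`, it can fail for at most `D / 39 + 4 √n` of the degrees
`1 ≤ d ≤ D`, and at general points it can fail for at most `(D / 39 + 4 √n) M ^ n` of the `D M ^ n`
classes with `1 ≤ d ≤ D` and `0 ≤ w i < M`.

Proof. By the result `NefAdjointClasses` the class `D` or a class `D' = D - ∑ C a`, `C a` disjoint
`(-1)`-curves with `D C a = -1`, can be carried to a standard class `(d'; w')` which satisfies none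
of the criteria, if the conjecture fails for `D`. There are at most `n + 1` such curves, and the
quadratic transformations preserve `D' ^ 2` and `K D'`. The new point is `d' ≤ d`: the degree of a
standard class is minimal in its orbit. Indeed the degree of another class in the orbit is the
intersection number of the standard class with a class `e H - ∑ u i E i` in the orbit of `H`, which
is nef, so that `u i ≤ e - 1`, `∑ u i = 3 (e - 1)`, and therefore
`e d' - ∑ u i w' i ≥ e d' - (e - 1) d' = d'`.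
-/

namespace Pool.Agent.Results.MP_70e04f_ag.EveryNumberOfPoints

open MvPolynomial Pool.Agent.TH167.SHDefs
open Pool.Agent.Results.MP_70e04f_ag.NefAdjointClasses (hZero chi ForGeneral Criterion)
open Pool.Agent.Y536.SH (Standard)
open Pool.Agent.V5helper95.KV (up)
open Pool.Agent.V5helper94.AC (Vec form)
open Pool.Agent.TH442.NF (Ch Step cls bil kap)

/-- The statement of the conjecture for the class `d H - ∑ w i E i` and the points `P`:
`h⁰ = max (0, χ)`, or some `(-1)`-curve `C` has `C D ≤ -2`. -/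
def Holds {n : ℕ} (P : Fin n → Fin 2 → ℂ) (d : ℕ) (w : Fin n → ℕ) : Prop :=
  hZero P d w = max 0 (chi d w) ∨
    ∃ (G : MvPolynomial (Fin 3) ℂ) (e : ℕ) (u : Fin n → ℕ), MinusOne P G e u ∧
      inter d w e u ≤ -2

/-- The number of the classes `d H - ∑ w i E i`, `1 ≤ d ≤ D`, `0 ≤ w i < M`, for which the statement
of the conjecture fails at the points `P`. -/
noncomputable def failures {n : ℕ} (P : Fin n → Fin 2 → ℂ) (D M : ℕ) : ℕ :=
  {a : ℕ × (Fin n → ℕ) | 1 ≤ a.1 ∧ a.1 ≤ D ∧ (∀ i, a.2 i < M) ∧ ¬ Holds P a.1 a.2}.ncard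

theorem deg_le {r d1 d2 : ℕ} {w1 w2 : Fin (r + 4) → ℕ} (h : Ch (cls d1 w1) (cls d2 w2))
    (hs : Standard d2 w2) : d2 ≤ d1 := by
  obtain ⟨y, hy, hbil⟩ := h.par (cls 1 (fun _ => 0))
  obtain ⟨K, _, _, P, hP⟩ := Pool.Agent.TH442.NF.exists_generic (r + 4)
  have hN : Pool.Agent.TH442.NF.NefAt P 1 (fun _ => 0) := by
    intro G e u _ _ _
    unfold Pool.Agent.TH167.SH.ip
    simp
  obtain ⟨P', e, u, hP', hN', rfl, -, -⟩ := Pool.Agent.TH442.NF.chain hP hN hy
  obtain ⟨h1, h2⟩ := hy.inv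
  have h1' : (e : ℤ) * e - ∑ l, (u l : ℤ) * u l = 1 := by
    have : bil (cls e u) (cls e u) = (e : ℤ) * e - ∑ l, (u l : ℤ) * u l := rfl
    rw [← this, h1]
    unfold Pool.Agent.TH442.NF.bil Pool.Agent.TH442.NF.cls
    simp
  have h2' : 3 * (e : ℤ) - ∑ l, (u l : ℤ) = 3 := by
    have : kap (cls e u) = 3 * (e : ℤ) - ∑ l, (u l : ℤ) := rfl
    rw [← this, h2]
    unfold Pool.Agent.TH442.NF.kap Pool.Agent.TH442.NF.cls
    simp
  have h3 : (d1 : ℤ) = (d2 : ℤ) * e - ∑ l, (w2 l : ℤ) * u l := by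
    have h4 : bil (cls d2 w2) (cls e u) = (d2 : ℤ) * e - ∑ l, (w2 l : ℤ) * u l := rfl
    rw [← h4, hbil]
    unfold Pool.Agent.TH442.NF.bil Pool.Agent.TH442.NF.cls
    simp
  have hu : ∀ i, (u i : ℤ) + 1 ≤ e := by
    intro i
    obtain ⟨j, hj⟩ : ∃ j : Fin (r + 4), i ≠ j := by
      by_cases hi : i = 0
      · exact ⟨1, by
          rw [hi]
          intro h0
          have := congrArg Fin.val h0
          simp at this⟩
      · exact ⟨0, hi⟩
    have h5 := hN'.pair hP' hj
    have h6 : (u i : ℤ) ≤ e := by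
      have : u i ≤ e := by omega
      exact_mod_cast this
    rcases h6.eq_or_lt with h7 | h7
    · exfalso
      have h8 : (u i : ℤ) * u i ≤ ∑ l, (u l : ℤ) * u l :=
        Finset.single_le_sum (f := fun l => (u l : ℤ) * u l) (fun l _ => by positivity)
          (Finset.mem_univ i)
      rw [h7] at h8
      linarith
    · linarith
  have h9 := Pool.Agent.V5helper94.AC.dom (n := r + 4) (by omega) (e := (e : ℤ)) (d := (d2 : ℤ))
    (u := fun i => (u i : ℤ)) (w := fun i => (w2 i : ℤ)) (fun i => by positivity) hu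
    (by linarith) (fun i j k h1 h2 h3 => by exact_mod_cast hs i j k h1 h2 h3)
  have h10 : ∑ i, (u i : ℤ) * (w2 i : ℤ) = ∑ l, (w2 l : ℤ) * u l :=
    Finset.sum_congr rfl fun i _ => mul_comm _ _
  rw [h10] at h9
  have h11 : (d2 : ℤ) ≤ d1 := by linarith
  exact_mod_cast h11

theorem step_of_quadratic {s : ℕ} {a b : ℕ × (Fin s → ℕ)} (h : Quadratic a b) :
    Step (cls a.1 a.2) (cls b.1 b.2) := by
  obtain ⟨i, j, k, hij, hik, hjk, h0, h1, h2, h3, h4⟩ := h
  refine ⟨![i, j, k], ?_, ?_⟩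
  · intro x y hxy
    fin_cases x <;> fin_cases y <;> simp_all
  · refine Prod.ext ?_ ?_
    · show (b.1 : ℤ) = (a.1 : ℤ) + ((a.1 : ℤ) - a.2 i - a.2 j - a.2 k)
      rw [h0]
      ring
    · funext l
      show (b.2 l : ℤ) = (a.2 l : ℤ) + if l = i ∨ l = j ∨ l = k then
        (a.1 : ℤ) - a.2 i - a.2 j - a.2 k else 0
      by_cases c0 : l = i
      · subst c0
        rw [if_pos (Or.inl rfl), h1]
        ring
      · by_cases c1 : l = j
        · subst c1
          rw [if_pos (Or.inr (Or.inl rfl)), h2]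
          ring
        · by_cases c2 : l = k
          · subst c2
            rw [if_pos (Or.inr (Or.inr rfl)), h3]
            ring
          · rw [if_neg (by tauto), h4 l c0 c1 c2, add_zero]

theorem ch_of_chain {s : ℕ} {a b : ℕ × (Fin s → ℕ)} (h : Relation.ReflTransGen Quadratic a b) :
    Ch (cls a.1 a.2) (cls b.1 b.2) := by
  unfold Ch
  induction h with
  | refl => exact Relation.ReflTransGen.refl
  | tail _ h2 ih => exact ih.tail (step_of_quadratic h2)

theorem cls_eq {n k : ℕ} {P : Fin n → Fin 2 → ℂ} {d d' : ℕ} {w w' : Fin n → ℕ}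
    {G : Fin k → MvPolynomial (Fin 3) ℂ} {e : Fin k → ℕ} {u : Fin k → Fin n → ℕ}
    (h : Decomp P d w d' w' G e u (fun _ => 1)) :
    cls d w = cls d' w' + ∑ a, cls (e a) (u a) := by
  refine Prod.ext ?_ ?_
  · rw [Prod.fst_add, Prod.fst_sum]
    show (d : ℤ) = (d' : ℤ) + ∑ a, (e a : ℤ)
    have := h.degree
    simp only [one_mul] at this
    exact_mod_cast this
  · funext i
    rw [Prod.snd_add, Prod.snd_sum, Pi.add_apply, Finset.sum_apply]
    show (w i : ℤ) = (w' i : ℤ) + ∑ a, (u a i : ℤ)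
    have := h.mult i
    simp only [one_mul] at this
    exact_mod_cast this

theorem kap_add {n : ℕ} (a b : ℤ × (Fin n → ℤ)) : kap (a + b) = kap a + kap b := by
  unfold Pool.Agent.TH442.NF.kap
  have : ∑ l, (a + b).2 l = ∑ l, a.2 l + ∑ l, b.2 l := by
    rw [← Finset.sum_add_distrib]
    rfl
  rw [this, Prod.fst_add]
  ring

theorem kap_sum {n k : ℕ} (v : Fin k → ℤ × (Fin n → ℤ)) : kap (∑ a, v a) = ∑ a, kap (v a) := by
  classical
  induction (Finset.univ : Finset (Fin k)) using Finset.induction_on with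
  | empty =>
    rw [Finset.sum_empty, Finset.sum_empty]
    unfold Pool.Agent.TH442.NF.kap
    simp
  | insert a s ha ih => rw [Finset.sum_insert ha, Finset.sum_insert ha, kap_add, ih]

/-- If the conjecture fails for the class, then its numbers are in the window. -/
theorem window {n : ℕ} (hn : 4 ≤ n) (d : ℕ) (w : Fin n → ℕ) : ForGeneral fun P =>
    Holds P d w ∨ (39 * ∑ i, w i ^ 2 ≤ 40 * d ^ 2 + 39 * (n + 1) ∧
      39 * (d + 3) ^ 2 < 40 * (∑ i, (w i + 1) ^ 2 + (n + 1))) := by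
  obtain ⟨F, hF, hF'⟩ := Pool.Agent.Results.MP_70e04f_ag.NefAdjointClasses.result n hn d w
  refine ⟨F, hF, fun P hP => ?_⟩
  rcases (hF' P hP).2 with h1 | h1 | ⟨d2, w2, k, G, e, u, d1, w1, hD, hch, hS, -, -, hC⟩
  · exact Or.inl (Or.inl h1)
  · exact Or.inl (Or.inr h1)
  · right
    obtain ⟨r, rfl⟩ : ∃ r, n = r + 4 := ⟨n - 4, by omega⟩
    have hc : Ch (cls d2 w2) (cls d1 w1) := ch_of_chain hch
    have hle := deg_le hc hS
    obtain ⟨i1, i2⟩ := hc.inv
    have hv : ∀ a b, form (cls (e a) (u a)) (cls (e b) (u b)) = if a = b then -1 else 0 := by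
      intro a b
      by_cases hab : a = b
      · subst hab
        rw [if_pos rfl]
        exact (hD.curve a).self
      · rw [if_neg hab]
        exact hD.disjoint a b hab
    have hsq : form (cls d2 w2) (cls d2 w2) = form (cls d w) (cls d w) + k :=
      Pool.Agent.V5helper94.AC.form_decomp (cls_eq hD) (fun a => hD.orthogonal a) hv
    have hk := Pool.Agent.V5helper94.AC.card_orth hv
    have hK : kap (cls d2 w2) = kap (cls d w) - k := by
      rw [cls_eq hD, kap_add, kap_sum]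
      have h2 : ∀ a, kap (cls (e a) (u a)) = 1 := by
        intro a
        have h3 := (hD.curve a).canonical
        have h4 : kap (cls (e a) (u a)) = - interK (e a) (u a) := by
          show 3 * (e a : ℤ) - ∑ l, (u a l : ℤ) = -(-3 * (e a : ℤ) + ∑ i, (u a i : ℤ))
          ring
        rw [h4, h3]
        ring
      rw [Finset.sum_congr rfl fun a _ => h2 a]
      simp
    have hdeg : d2 ≤ d := by
      have := hD.degree
      omega
    have e1 : ∀ (x : ℕ) (v : Fin (r + 4) → ℕ), bil (cls x v) (cls x v) =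
        (x : ℤ) ^ 2 - ∑ i, (v i : ℤ) ^ 2 := by
      intro x v
      show (x : ℤ) * x - ∑ l, (v l : ℤ) * v l = _
      rw [pow_two]
      congr 1
      exact Finset.sum_congr rfl fun i _ => (pow_two _).symm
    have e2 : ∀ (x : ℕ) (v : Fin (r + 4) → ℕ), kap (cls x v) = 3 * (x : ℤ) - ∑ i, (v i : ℤ) :=
      fun x v => rfl
    have hsq' : bil (cls d2 w2) (cls d2 w2) = bil (cls d w) (cls d w) + k := hsq
    rw [hsq', e1, e1] at i1
    rw [hK, e2, e2] at i2
    obtain ⟨M, hM⟩ : ∃ M : ℕ, M = ∑ i, w1 i + 2 := ⟨_, rfl⟩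
    have hwM : ∀ i, w1 i + 1 ≤ M := by
      intro i
      have := Finset.single_le_sum (f := w1) (fun _ _ => Nat.zero_le _) (Finset.mem_univ i)
      omega
    have hup : ∀ i, up w1 i ≤ w1 i + 1 := by
      intro i
      unfold Pool.Agent.V5helper95.KV.up
      split_ifs <;> omega
    refine Pool.Agent.V5helper94.AC.unresolved (n := r + 4) (w1 := w1) (u := up w1) (d1 := d1) hk
      (hle.trans hdeg) i1 (by linarith) hup ?_ ?_
    · intro h
      exact hC (Or.inr (Or.inl (Pool.Agent.V5helper95.KV.crit_negative (M := M) (by omega)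
        (fun i => by have := hwM i; omega) (Or.inl ⟨hS, Or.inl h⟩))))
    · intro h
      refine hC (Or.inl (Pool.Agent.V5helper95.KV.crit_positive (M := M) (by omega)
        (fun i => (hup i).trans (hwM i)) ?_ (Or.inl ⟨hS, Or.inl h⟩)))
      have h5 : 0 < (d1 + 3) ^ 2 := by positivity
      omega

theorem forGeneral_finset {n : ℕ} {ι : Type*} (s : Finset ι) (p : ι → (Fin n → Fin 2 → ℂ) → Prop)
    (h : ∀ a ∈ s, ForGeneral (p a)) : ForGeneral fun P => ∀ a ∈ s, p a P := by
  classical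
  induction s using Finset.induction_on with
  | empty => exact ⟨1, one_ne_zero, fun P _ a ha => absurd ha (Finset.notMem_empty a)⟩
  | insert a s _ ih =>
    obtain ⟨F, hF, hF'⟩ := ih fun b hb => h b (Finset.mem_insert_of_mem hb)
    obtain ⟨G, hG, hG'⟩ := h a (Finset.mem_insert_self a s)
    refine ⟨F * G, mul_ne_zero hF hG, fun P hP b hb => ?_⟩
    rw [map_mul] at hP
    rcases Finset.mem_insert.1 hb with rfl | hb
    · exact hG' P (right_ne_zero_of_mul hP)
    · exact hF' P (left_ne_zero_of_mul hP) b hb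

/-- The classes which are not in the window. -/
def Out {n : ℕ} (d : ℕ) (w : Fin n → ℕ) : Prop :=
  40 * d ^ 2 + 39 * (n + 1) < 39 * ∑ i, w i ^ 2 ∨
    40 * (∑ i, (w i + 1) ^ 2 + (n + 1)) ≤ 39 * (d + 3) ^ 2

theorem holds_of_out {n : ℕ} (hn : 4 ≤ n) {d : ℕ} {w : Fin n → ℕ} (h : Out d w) :
    ForGeneral fun P => Holds P d w := by
  obtain ⟨F, hF, hF'⟩ := window hn d w
  refine ⟨F, hF, fun P hP => ?_⟩
  rcases hF' P hP with h1 | ⟨h1, h2⟩
  · exact h1
  · exfalso
    rcases h with h | h <;> omega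

open Classical in
theorem out_count {n : ℕ} (hn : 4 ≤ n) (D : ℕ) (w : Fin n → ℕ) :
    (((Finset.Icc 1 D).filter (fun d => ¬ Out d w)).card : ℝ) ≤ D / 39 + 4 * √n := by
  refine Pool.Agent.V5helper94.AC.count_all (w := w) hn fun d hd => ?_
  rw [Finset.mem_filter, Finset.mem_Icc] at hd
  obtain ⟨⟨_, h1⟩, h2⟩ := hd
  unfold Out at h2
  push Not at h2
  exact ⟨h1, h2.1, h2.2⟩

/-- **The SHGH conjecture for 38 out of 39 classes, for every number of points.** -/
theorem result (n : ℕ) (hn : 4 ≤ n) :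
    -- (1)
    (∀ (d : ℕ) (w : Fin n → ℕ),
      (40 * d ^ 2 + 39 * (n + 1) < 39 * ∑ i, w i ^ 2 ∨
        40 * (∑ i, (w i + 1) ^ 2 + (n + 1)) ≤ 39 * (d + 3) ^ 2) →
      ForGeneral fun P => Holds P d w) ∧
    -- (2)
    (∀ (D : ℕ) (w : Fin n → ℕ),
      ({d : ℕ | 1 ≤ d ∧ d ≤ D ∧ ¬ ForGeneral fun P => Holds P d w}.ncard : ℝ) ≤
        D / 39 + 4 * √n) ∧
    -- (3)
    ∀ D M : ℕ, ForGeneral fun P : Fin n → Fin 2 → ℂ =>
      (failures P D M : ℝ) ≤ (D / 39 + 4 * √n) * (M : ℝ) ^ n := by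
  classical
  refine ⟨fun d w h => holds_of_out hn h, fun D w => ?_, fun D M => ?_⟩
  · refine le_trans ?_ (out_count hn D w)
    have h1 : {d : ℕ | 1 ≤ d ∧ d ≤ D ∧ ¬ ForGeneral fun P => Holds P d w} ⊆
        (((Finset.Icc 1 D).filter (fun d => ¬ Out d w) : Finset ℕ) : Set ℕ) := by
      rintro d ⟨h2, h3, h4⟩
      exact Finset.mem_coe.2 (Finset.mem_filter.2 ⟨Finset.mem_Icc.2 ⟨h2, h3⟩,
        fun h => h4 (holds_of_out hn h)⟩)
    have h2 := Set.ncard_le_ncard h1 (Finset.finite_toSet _)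
    rw [Set.ncard_coe_finset] at h2
    exact_mod_cast h2
  · obtain ⟨F, hF, hF'⟩ := forGeneral_finset (n := n) (Finset.Icc 1 D ×ˢ Vec n M)
      (fun a P => Out a.1 a.2 → Holds P a.1 a.2) fun a _ => by
        by_cases hG : Out a.1 a.2
        · obtain ⟨F, hF, hF'⟩ := holds_of_out hn hG
          exact ⟨F, hF, fun P hP _ => hF' P hP⟩
        · exact ⟨1, one_ne_zero, fun P _ h' => absurd h' hG⟩
    refine ⟨F, hF, fun P hP => ?_⟩
    refine le_trans ?_ (Pool.Agent.V5helper94.AC.count_box (n := n) (M := M) (D := D)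
      (fun d w => Out d w) (out_count hn D))
    have h1 : {a : ℕ × (Fin n → ℕ) | 1 ≤ a.1 ∧ a.1 ≤ D ∧ (∀ i, a.2 i < M) ∧
        ¬ Holds P a.1 a.2} ⊆
        (((Finset.Icc 1 D ×ˢ Vec n M).filter (fun a => ¬ Out a.1 a.2) :
          Finset (ℕ × (Fin n → ℕ))) : Set (ℕ × (Fin n → ℕ))) := by
      rintro a ⟨h2, h3, h4, h5⟩
      have h6 : a ∈ Finset.Icc 1 D ×ˢ Vec n M :=
        Finset.mem_product.2 ⟨Finset.mem_Icc.2 ⟨h2, h3⟩, Pool.Agent.V5helper94.AC.mem_Vec.2 h4⟩
      exact Finset.mem_coe.2 (Finset.mem_filter.2 ⟨h6, fun hG => h5 (hF' P hP a h6 hG)⟩)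
    have h2 := Set.ncard_le_ncard h1 (Finset.finite_toSet _)
    rw [Set.ncard_coe_finset] at h2
    exact_mod_cast h2

end Pool.Agent.Results.MP_70e04f_ag.EveryNumberOfPoints
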