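import Mathlib
import Pool.Agent.V5helper95.UB.Gen

set_option autoImplicit false

/-!
# Upper bounds for the dimensions of linear systems of plane curves with general base points

Let `D = d H - ∑ w i E i` on the blow-up of the complex projective plane at `n ≥ 4` general points.

(1) Let `u i ≥ w i` for `i ≤ n` and `u i ≥ 0` for `n < i ≤ n + k`, all `u i ≤ M`, `A = ∑ u i ^ 2`,
`A ≥ 144 M ^ 2`, and let `r` be the number of different `u i ≥ 1`. If `(16 r + 8) M ^ 2 ≤ A` and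
`d ^ 2 < A`, or if `A ≥ 576 M ^ 2` and `d ^ 2 < A - 700 M ^ 6 / A ^ 2`, then
`2 h⁰ (D) ≤ ∑ u i (u i + 1) - ∑ w i (w i + 1)`.

(2) Let `w i < M`, and let the sum `T` of the `w i ^ 2` with `w i ≥ 2` be at least `144 M ^ 2` and at
least `(16 r + 24) M ^ 2`, `r` the number of different `w i ≥ 1` (for instance `T ≥ 16 M ^ 3`, if
`M ≥ 9`; for bounded `r` only the number of the points has to be large enough). Then

* `h⁰ (D) ≤ k j (j + 1) / 2` whenever `j ≤ M` and `D ^ 2 < k j ^ 2`. So `h⁰ (D) ≤ 1` if `D ^ 2 = 0`, and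
  with `s = ⌊√(D ^ 2)⌋ < M` one has `h⁰ (D) ≤ (s + 1) (s + 2) / 2`, hence
  `h¹ (D) ≤ (K D + 3 √(D ^ 2)) / 2`.
* If `(d + 3) ^ 2 ≤ Q`, `Q = ∑_{w i ≥ 2} (w i + 1) ^ 2`, then
  `2 h⁰ (D) ≤ ∑_{w i ≥ 2} (w i + 1) - ⌊√Q⌋`.

The SHGH conjecture says that `h⁰ (D) = max (0, χ (D))` for standard `D`. By `NefAdjointClasses` this
is true if `D ^ 2 < 0` or `Q < (d + 3) ^ 2` (under the same hypotheses). In the window between, where
`D` is not known to be nonspecial, the theorem bounds `h⁰ (D)` from above.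

Proof. (1) The class `d H - ∑ u i E i` has negative square, so it has no sections by
the criterion `crit_negative` (nefness of `x H - ∑ u i E i` for `x ^ 2` close to `A`); and raising the
multiplicities from `w` to `u` imposes at most `∑ (u i (u i + 1) - w i (w i + 1)) / 2`
conditions. (2) The first bound is (1) for `u = (w, j, ..., j)`. The second one:
`h⁰ (D) ≤ h⁰ (D + t H) = χ (D + t H)` for the least `t` with `Q < (d + t + 3) ^ 2`, by the criterion
`crit_positive`.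
-/

namespace Pool.Agent.Results.MP_70e04f_ag.UpperBounds

open MvPolynomial Pool.Agent.TH167.SHDefs

/-- `h⁰ (D)` for the class `D = d H - ∑ w i E i`. -/
noncomputable def hZero {n : ℕ} (P : Fin n → Fin 2 → ℂ) (d : ℕ) (w : Fin n → ℕ) : ℤ :=
  (Module.finrank ℂ ↥(sys P d w) : ℤ)

/-- The property holds for all `n`-tuples of points outside some hypersurface. -/
def ForGeneral {n : ℕ} (p : (Fin n → Fin 2 → ℂ) → Prop) : Prop :=
  ∃ F : MvPolynomial (Fin n × Fin 2) ℂ, F ≠ 0 ∧ ∀ P : Fin n → Fin 2 → ℂ,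
    eval (fun ij : Fin n × Fin 2 => P ij.1 ij.2) F ≠ 0 → p P

/-- The number of the different values `w i ≥ 1`. -/
def values {n : ℕ} (w : Fin n → ℕ) : ℕ := ((Finset.univ.image w).filter (1 ≤ ·)).card

/-- Upper bounds for `h⁰`. -/
theorem result (n M : ℕ) (hn : 4 ≤ n) (hM0 : 0 < M) (w : Fin n → ℕ) (d : ℕ) :
    (∀ (k : ℕ) (u : Fin (n + k) → ℕ), (∀ i, Fin.append w (fun _ : Fin k => 0) i ≤ u i) →
      (∀ i, u i ≤ M) →
      ((144 * M ^ 2 ≤ ∑ i, u i ^ 2 ∧ (16 * values u + 8) * M ^ 2 ≤ ∑ i, u i ^ 2 ∧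
          d ^ 2 < ∑ i, u i ^ 2) ∨
        (576 * M ^ 2 ≤ ∑ i, u i ^ 2 ∧
          d ^ 2 * (∑ i, u i ^ 2) ^ 2 + 700 * M ^ 6 < (∑ i, u i ^ 2) ^ 3)) →
      ForGeneral fun P : Fin n → Fin 2 → ℂ =>
        2 * hZero P d w ≤ (∑ i, u i * (u i + 1) : ℕ) - (∑ i, w i * (w i + 1) : ℕ)) ∧
    ((∀ i, w i < M) → 144 * M ^ 2 ≤ ∑ i, (if 2 ≤ w i then w i ^ 2 else 0) →
      (16 * values w + 24) * M ^ 2 ≤ ∑ i, (if 2 ≤ w i then w i ^ 2 else 0) →
      (∀ k j : ℕ, j ≤ M → d ^ 2 < ∑ i, w i ^ 2 + k * j ^ 2 →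
        ForGeneral fun P : Fin n → Fin 2 → ℂ => 2 * hZero P d w ≤ k * (j * (j + 1))) ∧
      ((d + 3) ^ 2 ≤ ∑ i, (if 2 ≤ w i then (w i + 1) ^ 2 else 0) →
        ForGeneral fun P : Fin n → Fin 2 → ℂ => 2 * hZero P d w ≤
          (∑ i, if 2 ≤ w i then (w i + 1) else 0 : ℕ) -
            (Nat.sqrt (∑ i, if 2 ≤ w i then (w i + 1) ^ 2 else 0) : ℤ))) := by
  refine ⟨fun k u hwu huM h => ?_, fun hM h1 h2 => ?_⟩
  · obtain ⟨F, hF, hF'⟩ := Pool.Agent.V5helper95.UB.neg_gen hn hM0 hwu huM h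
    refine ⟨F, hF, fun P hP => ?_⟩
    have h := hF' P hP
    have h' : ((2 * Module.finrank ℂ ↥(sys P d w) + ∑ i, w i * (w i + 1) : ℕ) : ℤ) ≤
        ((∑ i, u i * (u i + 1) : ℕ) : ℤ) := by
      exact_mod_cast h
    rw [Nat.cast_add, Nat.cast_mul] at h'
    unfold hZero
    have h3 : ((2 : ℕ) : ℤ) = 2 := rfl
    rw [h3] at h'
    linarith
  have hS : ∑ i, (if 2 ≤ w i then w i ^ 2 else 0) ≤ ∑ i, w i ^ 2 :=
    Finset.sum_le_sum fun i _ => by split_ifs <;> omega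
  have hup : ∀ i, Pool.Agent.V5helper95.KV.up w i = if 2 ≤ w i then w i + 1 else 0 := fun i => by
    unfold Pool.Agent.V5helper95.KV.up
    split_ifs <;> omega
  have hup2 : ∀ i, Pool.Agent.V5helper95.KV.up w i ^ 2 = if 2 ≤ w i then (w i + 1) ^ 2 else 0 :=
    fun i => by
      rw [hup]
      split_ifs <;> rfl
  have hQ : ∑ i, Pool.Agent.V5helper95.KV.up w i ^ 2 =
      ∑ i, (if 2 ≤ w i then (w i + 1) ^ 2 else 0) := Finset.sum_congr rfl fun i _ => hup2 i
  have hU : ∑ i, Pool.Agent.V5helper95.KV.up w i = ∑ i, (if 2 ≤ w i then (w i + 1) else 0) :=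
    Finset.sum_congr rfl fun i _ => hup i
  constructor
  · intro k j hj hd
    obtain ⟨F, hF, hF'⟩ := Pool.Agent.V5helper95.UB.neg_case hn (fun i => (hM i).le) hj
      (h1.trans hS) (h2.trans hS) hd
    refine ⟨F, hF, fun P hP => ?_⟩
    have h := hF' P hP
    have h' : ((2 * Module.finrank ℂ ↥(sys P d w) : ℕ) : ℤ) ≤ ((k * (j * (j + 1)) : ℕ) : ℤ) := by
      exact_mod_cast h
    push_cast at h'
    exact h'
  · intro hd
    have hTQ : ∑ i, (if 2 ≤ w i then w i ^ 2 else 0) ≤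
        ∑ i, Pool.Agent.V5helper95.KV.up w i ^ 2 := Finset.sum_le_sum fun i _ => by
      rw [hup2]
      split_ifs
      · exact Nat.pow_le_pow_left (by omega) 2
      · exact le_rfl
    have hv : Pool.Agent.V5helper95.KV.vals 2 w ≤ values w := by
      unfold Pool.Agent.V5helper95.KV.vals values
      refine Finset.card_le_card fun x hx => ?_
      rw [Finset.mem_filter] at hx ⊢
      exact ⟨hx.1, by omega⟩
    obtain ⟨F, hF, hF'⟩ := Pool.Agent.V5helper95.UB.pos_case hn hM0 (fun i => by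
        rw [hup]
        have := hM i
        split_ifs <;> omega) (h1.trans hTQ)
      (le_trans (Nat.mul_le_mul_right _ (by omega)) (h2.trans hTQ)) (by rw [hQ]; exact hd)
    refine ⟨F, hF, fun P hP => ?_⟩
    have h := hF' P hP
    rw [hQ, hU] at h
    have h' : ((2 * Module.finrank ℂ ↥(sys P d w) +
        Nat.sqrt (∑ i, if 2 ≤ w i then (w i + 1) ^ 2 else 0) : ℕ) : ℤ) ≤
        ((∑ i, if 2 ≤ w i then (w i + 1) else 0 : ℕ) : ℤ) := by
      exact_mod_cast h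
    rw [Nat.cast_add, Nat.cast_mul] at h'
    unfold hZero
    have h3 : ((2 : ℕ) : ℤ) = 2 := rfl
    rw [h3] at h'
    linarith

end Pool.Agent.Results.MP_70e04f_ag.UpperBounds
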